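import Pool.Agent.H94.BeamDefs
import Pool.Agent.H94.BeamProof

set_option autoImplicit false

namespace Pool.Agent.Results.MP_8d8cf3_an.Fails

open Pool.Agent.H94.BeamDefs

/-- For any number `m` of integer speeds `a i`, observation points `(t_i, x_i) = (0, 0)`, any
`T > 0` and any constant `α`, the inverse inequality with constant `α` fails for some finitely
supported coefficient sequences. -/
theorem result (m : ℕ) (a : Fin m → ℤ) (T : ℝ) (hT : 0 < T) (α : ℝ) :
    ∃ cp cm : ℤ → ℂ, (Function.support cp).Finite ∧ (Function.support cm).Finite ∧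
      α * ∑ i, ∫ t in (0 : ℝ)..T, ‖beam cp cm (0 + t) (0 - a i * t)‖ ^ 2
        < ∑' k, (‖cp k‖ ^ 2 + ‖cm k‖ ^ 2) :=
  Pool.Agent.H94.BeamProof.main m a T hT α

end Pool.Agent.Results.MP_8d8cf3_an.Fails
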